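import Pool.Agent.H933.LL.Stm

/-! Project LL (helper933): P_sq (helper665). -/

set_option autoImplicit false

open MeasureTheory Metric Filter Topology
open scoped Real

namespace Pool.Agent.H665.LL

open Pool.Agent.H933.LL

variable {X : Type} [NormedAddCommGroup X] [NormedSpace ℂ X] [CompleteSpace X]

/-- restriction to the resolvent set -/
theorem restrict_eq {T : X →L[ℂ] X} {l : ℂ} {r : ℝ}
    (h0 : volume (spectrum ℂ T ∩ ball l r) = 0) :
    volume.restrict (ball l r) = volume.restrict (resolventSet ℂ T ∩ ball l r) := by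
  refine Measure.restrict_congr_set ?_
  rw [ae_eq_set]
  constructor
  · refine measure_mono_null ?_ h0
    intro z hz
    exact ⟨fun hz' => hz.2 ⟨hz', hz.1⟩, hz.1⟩
  · have : (resolventSet ℂ T ∩ ball l r) \ ball l r = ∅ := by
      ext z
      simp
    rw [this, measure_empty]

theorem ae_mem {T : X →L[ℂ] X} {l : ℂ} {r : ℝ}
    (h0 : volume (spectrum ℂ T ∩ ball l r) = 0) :
    ∀ᵐ z ∂(volume.restrict (ball l r)), z ∈ resolventSet ℂ T := by
  rw [restrict_eq h0]
  have hm : MeasurableSet (resolventSet ℂ T ∩ ball l r) :=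
    (spectrum.isOpen_resolventSet T).measurableSet.inter measurableSet_ball
  filter_upwards [ae_restrict_mem hm] with z hz
  exact hz.1

theorem aesm_resolvent {T : X →L[ℂ] X} {l : ℂ} {r : ℝ}
    (h0 : volume (spectrum ℂ T ∩ ball l r) = 0) :
    AEStronglyMeasurable (resolvent T : ℂ → X →L[ℂ] X) (volume.restrict (ball l r)) := by
  rw [restrict_eq h0]
  have hm : MeasurableSet (resolventSet ℂ T ∩ ball l r) :=
    (spectrum.isOpen_resolventSet T).measurableSet.inter measurableSet_ball
  refine ContinuousOn.aestronglyMeasurable ?_ hm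
  intro z hz
  exact (spectrum.hasDerivAt_resolvent hz.1).continuousAt.continuousWithinAt

theorem integrable_Op {T : X →L[ℂ] X} {l : ℂ} {r : ℝ} {h : ℂ → ℂ}
    (h0 : volume (spectrum ℂ T ∩ ball l r) = 0) (hA : Adm T l r h) :
    IntegrableOn (fun z => h z • resolvent T z) (ball l r) := by
  refine (hA.int.mono' (hA.meas.smul (aesm_resolvent h0)) ?_)
  refine Eventually.of_forall fun z => ?_
  rw [norm_smul]

/-- the lower bound of the resolvent near the spectrum -/
theorem one_le_resolvent {T : X →L[ℂ] X} {l z : ℂ} (hl : l ∈ spectrum ℂ T)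
    (hz : z ∈ resolventSet ℂ T) : 1 ≤ ‖resolvent T z‖ * ‖z - l‖ := by
  by_contra hlt
  rw [not_le] at hlt
  have hnt : Nontrivial X := by
    by_contra hn
    rw [not_nontrivial_iff_subsingleton] at hn
    have hs : Subsingleton (X →L[ℂ] X) := ⟨fun f g => by
      ext x
      exact Subsingleton.elim _ _⟩
    rw [spectrum.of_subsingleton] at hl
    exact hl
  have hu : resolvent T z = ((IsUnit.unit hz)⁻¹ : (X →L[ℂ] X)ˣ) := spectrum.resolvent_eq hz
  have hpos : 0 < ‖(((IsUnit.unit hz)⁻¹ : (X →L[ℂ] X)ˣ) : X →L[ℂ] X)‖ := Units.norm_pos _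
  rw [hu] at hlt
  have e1 : (algebraMap ℂ (X →L[ℂ] X) l - T) - ((IsUnit.unit hz : (X →L[ℂ] X)ˣ) : X →L[ℂ] X) =
      algebraMap ℂ (X →L[ℂ] X) (l - z) := by
    rw [IsUnit.unit_spec, map_sub]
    abel
  have h1 : ‖(algebraMap ℂ (X →L[ℂ] X) l - T) -
      ((IsUnit.unit hz : (X →L[ℂ] X)ˣ) : X →L[ℂ] X)‖ <
      ‖(((IsUnit.unit hz)⁻¹ : (X →L[ℂ] X)ˣ) : X →L[ℂ] X)‖⁻¹ := by
    rw [e1, norm_algebraMap', norm_sub_rev, ← one_div, lt_div_iff₀ hpos, mul_comm]
    exact hlt
  have h2 : IsUnit (algebraMap ℂ (X →L[ℂ] X) l - T) :=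
    ⟨Units.ofNearby (IsUnit.unit hz) _ h1, rfl⟩
  exact hl h2

theorem resolvent_apply_sub {T : X →L[ℂ] X} {z : ℂ} (hz : z ∈ resolventSet ℂ T) (y : X) :
    z • resolvent T z y - T (resolvent T z y) = y := by
  have hu : resolvent T z = ((IsUnit.unit hz)⁻¹ : (X →L[ℂ] X)ˣ) := spectrum.resolvent_eq hz
  have h1 : (algebraMap ℂ (X →L[ℂ] X) z - T) * resolvent T z = 1 := by
    rw [hu]
    exact IsUnit.mul_val_inv hz
  have h2 := DFunLike.congr_fun h1 y
  exact h2

theorem resolvent_sub_apply {T : X →L[ℂ] X} {z : ℂ} (hz : z ∈ resolventSet ℂ T) (y : X) :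
    resolvent T z (z • y - T y) = y := by
  have hu : resolvent T z = ((IsUnit.unit hz)⁻¹ : (X →L[ℂ] X)ˣ) := spectrum.resolvent_eq hz
  have h1 : resolvent T z * (algebraMap ℂ (X →L[ℂ] X) z - T) = 1 := by
    rw [hu]
    exact IsUnit.val_inv_mul hz
  have h2 := DFunLike.congr_fun h1 y
  exact h2

/-- approximate eigenvectors -/
theorem exists_approx {T : X →L[ℂ] X} {l : ℂ} {r : ℝ} (hr : 0 < r) (hl : l ∈ spectrum ℂ T)
    (h0 : volume (spectrum ℂ T ∩ ball l r) = 0) {ε : ℝ} (hε : 0 < ε) :
    ∃ x : X, ‖x‖ = 1 ∧ ‖T x - l • x‖ ≤ ε := by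
  obtain ⟨z, hz, hzl⟩ : ∃ z ∈ resolventSet ℂ T, ‖z - l‖ < ε / 3 := by
    by_contra hno
    have hδ : 0 < min r (ε / 3) := by positivity
    have hsub : ball l (min r (ε / 3)) ⊆ spectrum ℂ T ∩ ball l r := by
      intro z hz
      rw [mem_ball, dist_eq_norm] at hz
      refine ⟨fun hz' => hno ⟨z, hz', hz.trans_le (min_le_right _ _)⟩, ?_⟩
      rw [mem_ball, dist_eq_norm]
      exact hz.trans_le (min_le_left _ _)
    have h1 := measure_mono_null hsub h0
    exact (measure_ball_pos volume l hδ).ne' h1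
  have hge := one_le_resolvent hl hz
  have hzl0 : 0 < ‖z - l‖ := by
    by_contra hn
    have h2 : ‖z - l‖ = 0 := le_antisymm (not_lt.1 hn) (norm_nonneg _)
    rw [h2, mul_zero] at hge
    linarith
  have hlt : 1 / (2 * ‖z - l‖) < ‖resolvent T z‖ := by
    have h2 : 1 / ‖z - l‖ ≤ ‖resolvent T z‖ := by
      rw [div_le_iff₀ hzl0]
      exact hge
    refine lt_of_lt_of_le ?_ h2
    exact one_div_lt_one_div_of_lt hzl0 (by linarith)
  obtain ⟨y, hy1, hy2⟩ := (resolvent T z).exists_lt_apply_of_lt_opNorm hlt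
  set v := resolvent T z y with hv
  have hpos : 0 < 1 / (2 * ‖z - l‖) := by positivity
  have hv0 : 0 < ‖v‖ := hpos.trans hy2
  have hres : z • v - T v = y := resolvent_apply_sub hz y
  have e1 : T v - l • v = (z - l) • v - y := by
    rw [← hres, sub_smul]
    abel
  refine ⟨((‖v‖⁻¹ : ℝ) : ℂ) • v, ?_, ?_⟩
  · rw [norm_smul, Complex.norm_real, norm_inv, norm_norm, inv_mul_cancel₀ hv0.ne']
  · have e2 : T (((‖v‖⁻¹ : ℝ) : ℂ) • v) - l • ((‖v‖⁻¹ : ℝ) : ℂ) • v =
        ((‖v‖⁻¹ : ℝ) : ℂ) • (T v - l • v) := by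
      rw [map_smul, smul_sub, smul_comm]
    rw [e2, norm_smul, Complex.norm_real, norm_inv, norm_norm, e1]
    have h3 : ‖(z - l) • v - y‖ ≤ ‖z - l‖ * ‖v‖ + 1 := by
      refine (norm_sub_le _ _).trans ?_
      rw [norm_smul]
      linarith
    have h4 : 1 ≤ 2 * ‖z - l‖ * ‖v‖ := by
      have := hy2.le
      rw [div_le_iff₀ (by positivity)] at this
      linarith
    rw [inv_mul_le_iff₀ hv0]
    refine h3.trans ?_
    nlinarith

theorem p_sq : P_sq := by
  intro X _ _ _ T l r h hr hl h0 hA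
  choose x hx1 hx2 using fun n : ℕ => exists_approx hr hl h0 (ε := 1 / ((n : ℝ) + 1)) (by positivity)
  have hlim : Tendsto (fun n => T (x n) - l • x n) atTop (𝓝 0) :=
    squeeze_zero_norm hx2 tendsto_one_div_add_atTop_nhds_zero_nat
  set c : ℂ := ∫ z in ball l r, h z * (z - l)⁻¹ with hc
  have hc0 : c ≠ 0 := hA.ne
  have hnel : ∀ z ∈ resolventSet ℂ T, z ≠ l := fun z hz hzl => by
    rw [hzl] at hz
    exact hl hz
  -- the difference
  have hdiff : ∀ (z : ℂ), z ∈ resolventSet ℂ T → ∀ y : X,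
      resolvent T z y - (z - l)⁻¹ • y = (z - l)⁻¹ • resolvent T z (T y - l • y) := by
    intro z hz y
    have hne : z - l ≠ 0 := sub_ne_zero.2 (hnel z hz)
    have e1 : T y - l • y = (z - l) • y - (z • y - T y) := by
      rw [sub_smul]
      abel
    rw [e1, map_sub, resolvent_sub_apply hz, map_smul, smul_sub, smul_smul,
      inv_mul_cancel₀ hne, one_smul]
  have hinvle : ∀ z ∈ resolventSet ℂ T, ‖(z - l)⁻¹‖ ≤ ‖resolvent T z‖ := by
    intro z hz
    have hne : z - l ≠ 0 := sub_ne_zero.2 (hnel z hz)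
    rw [norm_inv, ← one_div, div_le_iff₀ (norm_pos_iff.2 hne)]
    exact one_le_resolvent hl hz
  have hOpint := integrable_Op h0 hA
  have hinvint : IntegrableOn (fun z => h z * (z - l)⁻¹) (ball l r) := by
    refine hA.int.mono' (hA.meas.mul ?_) ?_
    · exact ((measurable_id.sub_const l).inv).aestronglyMeasurable
    · filter_upwards [ae_mem h0] with z hz
      rw [norm_mul]
      exact mul_le_mul_of_nonneg_left (hinvle z hz) (norm_nonneg _)
  have hOp : ∀ y : X, Op T l r h y = ∫ z in ball l r, h z • resolvent T z y := by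
    intro y
    unfold Op
    rw [ContinuousLinearMap.integral_apply hOpint]
    rfl
  have hOpint' : ∀ y : X, IntegrableOn (fun z => h z • resolvent T z y) (ball l r) := by
    intro y
    exact hOpint.apply_continuousLinearMap y
  have hsub : ∀ y : X, Op T l r h y - c • y =
      ∫ z in ball l r, h z • (resolvent T z y - (z - l)⁻¹ • y) := by
    intro y
    have e1 : c • y = ∫ z in ball l r, (h z * (z - l)⁻¹) • y := by
      rw [hc, integral_smul_const]
    rw [hOp, e1, ← integral_sub (hOpint' y) (hinvint.smul_const y)]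
    refine integral_congr_ae (Eventually.of_forall fun z => ?_)
    simp only [smul_sub, mul_smul]
  have hconv : Tendsto (fun n => Op T l r h (x n) - c • x n) atTop (𝓝 0) := by
    have h1 : Tendsto (fun n => ∫ z in ball l r, h z • (resolvent T z (x n) - (z - l)⁻¹ • x n))
        atTop (𝓝 (∫ z in ball l r, (0 : X))) := by
      refine tendsto_integral_of_dominated_convergence (fun z => 2 * (‖h z‖ * ‖resolvent T z‖))
        (fun n => ?_) (hA.int.const_mul 2) (fun n => ?_) ?_
      · have h2 := ((hOpint' (x n)).sub (hinvint.smul_const (x n))).aestronglyMeasurable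
        refine h2.congr (Eventually.of_forall fun z => ?_)
        simp only [Pi.sub_apply, smul_sub, mul_smul]
      · filter_upwards [ae_mem h0] with z hz
        rw [norm_smul]
        have h3 : ‖resolvent T z (x n) - (z - l)⁻¹ • x n‖ ≤ 2 * ‖resolvent T z‖ := by
          refine (norm_sub_le _ _).trans ?_
          rw [norm_smul, hx1, mul_one]
          have h4 := (resolvent T z).le_opNorm (x n)
          rw [hx1, mul_one] at h4
          have h5 := hinvle z hz
          linarith
        calc ‖h z‖ * ‖resolvent T z (x n) - (z - l)⁻¹ • x n‖ ≤ ‖h z‖ * (2 * ‖resolvent T z‖) :=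
              mul_le_mul_of_nonneg_left h3 (norm_nonneg _)
          _ = _ := by ring
      · filter_upwards [ae_mem h0] with z hz
        have h3 : Tendsto (fun n => h z • (z - l)⁻¹ • resolvent T z (T (x n) - l • x n)) atTop
            (𝓝 (h z • (z - l)⁻¹ • resolvent T z 0)) :=
          ((((resolvent T z).continuous.tendsto 0).comp hlim).const_smul _).const_smul _
        rw [map_zero, smul_zero, smul_zero] at h3
        refine h3.congr fun n => ?_
        rw [hdiff z hz]
    rw [integral_zero] at h1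
    refine h1.congr fun n => ?_
    rw [hsub]
  intro hzero
  have h5 : Tendsto (fun n => Op T l r h (Op T l r h (x n) - c • x n) +
      c • (Op T l r h (x n) - c • x n)) atTop (𝓝 (Op T l r h 0 + c • (0 : X))) :=
    (((Op T l r h).continuous.tendsto 0).comp hconv).add (hconv.const_smul c)
  rw [map_zero, smul_zero, add_zero] at h5
  have h6 : ∀ n, Op T l r h (Op T l r h (x n) - c • x n) + c • (Op T l r h (x n) - c • x n) =
      -((c * c) • x n) := by
    intro n
    have h7 : Op T l r h (Op T l r h (x n)) = 0 := DFunLike.congr_fun hzero (x n)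
    rw [map_sub, h7, map_smul, smul_sub, mul_smul]
    abel
  have h8 := (h5.congr h6).norm
  rw [norm_zero] at h8
  have h9 : ∀ n, ‖-((c * c) • x n)‖ = ‖c * c‖ := by
    intro n
    rw [norm_neg, norm_smul, hx1, mul_one]
  have h10 : Tendsto (fun _ : ℕ => ‖c * c‖) atTop (𝓝 0) := h8.congr h9
  have h11 := tendsto_nhds_unique h10 tendsto_const_nhds
  exact hc0 (mul_self_eq_zero.1 (norm_eq_zero.1 h11.symm))

end Pool.Agent.H665.LL
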