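import Pool.Agent.H933.LL.Stm2

/-! Project LL (helper933): P_thin (helper665). -/

set_option autoImplicit false

open MeasureTheory Metric Filter Topology
open scoped Real ENNReal

namespace Pool.Agent.H665.LL

open Pool.Agent.H933.LL

theorem summable_aux (q ε C : ℝ) (hε : 0 < ε) :
    Summable (fun k : ℕ => ((k : ℝ) + 1) ^ q * (|C| * Real.exp (-(k : ℝ)) ^ ε)) := by
  set ρ : ℝ := Real.exp (-ε) with hρ
  have hρ0 : 0 < ρ := Real.exp_pos _
  have hρ1 : ρ < 1 := by
    rw [hρ, Real.exp_lt_one_iff]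
    linarith
  have h1 : Summable (fun n : ℕ => ((n : ℝ)) ^ ⌈q⌉₊ * ρ ^ n) :=
    summable_pow_mul_geometric_of_norm_lt_one ⌈q⌉₊ (by
      rw [Real.norm_eq_abs, abs_of_pos hρ0]
      exact hρ1)
  have h2 := ((summable_nat_add_iff 1).2 h1).mul_left (|C| * ρ⁻¹)
  refine Summable.of_nonneg_of_le (fun k => by positivity) (fun k => ?_) h2
  have e1 : Real.exp (-(k : ℝ)) ^ ε = ρ ^ k := by
    rw [← Real.exp_mul, hρ, ← Real.exp_nat_mul]
    congr 1
    ring
  have e2 : ((k : ℝ) + 1) ^ q ≤ ((k : ℝ) + 1) ^ ⌈q⌉₊ := by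
    rw [← Real.rpow_natCast]
    exact Real.rpow_le_rpow_of_exponent_le (by
      have : (0 : ℝ) ≤ k := Nat.cast_nonneg k
      linarith) (Nat.le_ceil q)
  rw [e1]
  have e3 : |C| * ρ⁻¹ * (((k + 1 : ℕ) : ℝ) ^ ⌈q⌉₊ * ρ ^ (k + 1)) =
      ((k : ℝ) + 1) ^ ⌈q⌉₊ * (|C| * ρ ^ k) := by
    push_cast
    rw [pow_succ]
    field_simp
  rw [e3]
  exact mul_le_mul_of_nonneg_right e2 (by positivity)

theorem measurable_posLog' : Measurable Real.posLog := by
  have : Real.posLog = fun x : ℝ => max 0 (Real.log x) := by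
    funext x
    rfl
  rw [this]
  exact measurable_const.max Real.measurable_log

/-- the pointwise bound -/
theorem pointwise (q d : ℝ) (hq : 0 < q) (hd : 0 ≤ d) :
    ENNReal.ofReal ((Real.posLog d⁻¹) ^ q) ≤
      ∑' k : ℕ, if d ≤ Real.exp (-(k : ℝ)) then ENNReal.ofReal (((k : ℝ) + 1) ^ q) else 0 := by
  by_cases h : Real.posLog d⁻¹ = 0
  · rw [h, Real.zero_rpow hq.ne', ENNReal.ofReal_zero]
    exact bot_le
  have hpos : 0 < Real.log d⁻¹ := by
    by_contra hn
    apply h
    rw [Real.posLog_def]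
    exact max_eq_left (not_lt.1 hn)
  have hlog : Real.posLog d⁻¹ = Real.log d⁻¹ := by
    rw [Real.posLog_def]
    exact max_eq_right hpos.le
  have hd0 : 0 < d := by
    rcases hd.lt_or_eq with h1 | h1
    · exact h1
    · rw [← h1] at hpos
      simp at hpos
  set k : ℕ := ⌊Real.log d⁻¹⌋₊ with hk
  have hk1 : (k : ℝ) ≤ Real.log d⁻¹ := Nat.floor_le hpos.le
  have hk2 : Real.log d⁻¹ < (k : ℝ) + 1 := Nat.lt_floor_add_one _
  have hdk : d ≤ Real.exp (-(k : ℝ)) := by
    rw [← Real.log_le_iff_le_exp hd0]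
    rw [Real.log_inv] at hk1
    linarith
  refine le_trans ?_ (ENNReal.le_tsum k)
  rw [if_pos hdk, hlog]
  exact ENNReal.ofReal_le_ofReal (Real.rpow_le_rpow hpos.le hk2.le hq.le)

theorem p_thin : P_thin := by
  intro E hE q r hq
  obtain ⟨C, ε, hε, hC⟩ := hE
  have hmeas : Measurable (fun z : ℂ => (Real.posLog (infDist z E)⁻¹) ^ q) :=
    (measurable_posLog'.comp (continuous_infDist_pt E).measurable.inv).pow_const q
  refine ⟨hmeas.aestronglyMeasurable, ?_⟩
  rw [hasFiniteIntegral_iff_ofReal (Eventually.of_forall fun z =>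
    Real.rpow_nonneg Real.posLog_nonneg q)]
  have hm : ∀ k : ℕ, MeasurableSet {z : ℂ | infDist z E ≤ Real.exp (-(k : ℝ))} := fun k =>
    measurableSet_le (continuous_infDist_pt E).measurable measurable_const
  calc ∫⁻ z in ball (0 : ℂ) r, ENNReal.ofReal ((Real.posLog (infDist z E)⁻¹) ^ q)
      ≤ ∫⁻ z, ENNReal.ofReal ((Real.posLog (infDist z E)⁻¹) ^ q) := setLIntegral_le_lintegral _ _
    _ ≤ ∫⁻ z, ∑' k : ℕ, {z : ℂ | infDist z E ≤ Real.exp (-(k : ℝ))}.indicator
          (fun _ => ENNReal.ofReal (((k : ℝ) + 1) ^ q)) z := by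
        refine lintegral_mono fun z => ?_
        refine (pointwise q (infDist z E) hq infDist_nonneg).trans (le_of_eq ?_)
        refine tsum_congr fun k => ?_
        rw [Set.indicator_apply]
        rfl
    _ = ∑' k : ℕ, ∫⁻ z, {z : ℂ | infDist z E ≤ Real.exp (-(k : ℝ))}.indicator
          (fun _ => ENNReal.ofReal (((k : ℝ) + 1) ^ q)) z := by
        refine lintegral_tsum fun k => ?_
        exact (measurable_const.indicator (hm k)).aemeasurable
    _ = ∑' k : ℕ, ENNReal.ofReal (((k : ℝ) + 1) ^ q) *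
          volume {z : ℂ | infDist z E ≤ Real.exp (-(k : ℝ))} := by
        refine tsum_congr fun k => ?_
        rw [lintegral_indicator_const (hm k)]
    _ ≤ ∑' k : ℕ, ENNReal.ofReal (((k : ℝ) + 1) ^ q * (|C| * Real.exp (-(k : ℝ)) ^ ε)) := by
        refine ENNReal.tsum_le_tsum fun k => ?_
        rw [ENNReal.ofReal_mul (by positivity)]
        refine mul_le_mul_right ?_ _
        refine (hC _ (Real.exp_pos _) (by
          rw [Real.exp_le_one_iff]
          have : (0 : ℝ) ≤ k := Nat.cast_nonneg k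
          linarith)).trans ?_
        exact ENNReal.ofReal_le_ofReal (mul_le_mul_of_nonneg_right (le_abs_self C) (by positivity))
    _ < ∞ := (summable_aux q ε C hε).tsum_ofReal_lt_top

end Pool.Agent.H665.LL
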